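import Mathlib

set_option autoImplicit false
set_option maxHeartbeats 1000000

open Finset

namespace Pool.Agent.H843R3.Had

variable {ι : Type*} [Fintype ι] [DecidableEq ι]

omit [Fintype ι] [DecidableEq ι] in
/-- double sum identity -/
theorem dsum (ν : ι → ℝ) (P Q : Finset ι) :
    ∑ i ∈ P, ∑ j ∈ Q, (ν i - ν j) = (Q.card : ℝ) * ∑ i ∈ P, ν i - (P.card : ℝ) * ∑ j ∈ Q, ν j := by
  simp only [Finset.sum_sub_distrib, Finset.sum_const, nsmul_eq_mul, Finset.mul_sum]

theorem sum_compl' (ν : ι → ℝ) (P : Finset ι) (h0 : ∑ i, ν i = 0) :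
    ∑ i ∈ Pᶜ, ν i = - ∑ i ∈ P, ν i := by
  have := Finset.sum_add_sum_compl P ν
  linarith

theorem card_compl_real (P : Finset ι) :
    ((Pᶜ).card : ℝ) = (Fintype.card ι : ℝ) - (P.card : ℝ) := by
  rw [Finset.card_compl, Nat.cast_sub (Finset.card_le_univ P)]

/-- A nontrivial upper set has positive sum. -/
theorem prefix_pos (ν : ι → ℝ) (P : Finset ι) (h0 : ∑ i, ν i = 0)
    (hs : ∀ i ∈ P, ∀ j ∉ P, ν j ≤ ν i) (hP : P.Nonempty) (hPc : ∃ j, j ∉ P) (hν : ∃ i, ν i ≠ 0) :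
    0 < ∑ i ∈ P, ν i := by
  have h1 : 0 ≤ ∑ i ∈ P, ∑ j ∈ Pᶜ, (ν i - ν j) := by
    refine Finset.sum_nonneg fun i hi => Finset.sum_nonneg fun j hj => ?_
    have := hs i hi j (Finset.mem_compl.1 hj)
    linarith
  have h2 : ∑ i ∈ P, ∑ j ∈ Pᶜ, (ν i - ν j) = (Fintype.card ι : ℝ) * ∑ i ∈ P, ν i := by
    rw [dsum, sum_compl' ν P h0, card_compl_real]
    ring
  obtain ⟨i0, hi0⟩ := hP
  obtain ⟨j0, hj0⟩ := hPc
  have hn : (0 : ℝ) < Fintype.card ι := by
    have : 0 < Fintype.card ι := Fintype.card_pos_iff.2 ⟨i0⟩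
    exact_mod_cast this
  rcases (lt_or_eq_of_le h1) with h3 | h3
  · rw [h2] at h3
    exact (mul_pos_iff_of_pos_left hn).1 h3
  · exfalso
    have h4 : ∀ i ∈ P, ∀ j ∉ P, ν i = ν j := by
      intro i hi j hj
      have h5 := (Finset.sum_eq_zero_iff_of_nonneg (fun i hi => Finset.sum_nonneg fun j hj => by
        have := hs i hi j (Finset.mem_compl.1 hj)
        linarith)).1 h3.symm i hi
      have h6 := (Finset.sum_eq_zero_iff_of_nonneg (fun j hj => by
        have := hs i hi j (Finset.mem_compl.1 hj)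
        linarith)).1 h5 j (Finset.mem_compl.2 hj)
      linarith
    have h5 : ∀ k, ν k = ν i0 := by
      intro k
      by_cases hk : k ∈ P
      · rw [h4 k hk j0 hj0, h4 i0 hi0 j0 hj0]
      · exact (h4 i0 hi0 k hk).symm
    have h6 : ∑ i, ν i = (Fintype.card ι : ℝ) * ν i0 := by
      rw [Finset.sum_congr rfl (fun k _ => h5 k)]
      simp
    rw [h0] at h6
    have h7 : ν i0 = 0 := by
      rcases mul_eq_zero.1 h6.symm with h | h
      · exact absurd h hn.ne'
      · exact h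
    obtain ⟨i, hi⟩ := hν
    exact hi (by rw [h5 i, h7])

/-- (ii) -/
theorem top_two (ν : ι → ℝ) (P : Finset ι) (z : ι) (hz : z ∈ P) (h0 : ∑ i, ν i = 0)
    (hs : ∀ i ∈ P, ∀ j ∉ P, ν j ≤ ν i) :
    ((Fintype.card ι : ℝ) - P.card) * ν z ≤ ((Fintype.card ι : ℝ) - 1) * ∑ i ∈ P, ν i := by
  have h1 : 0 ≤ ∑ i ∈ P.erase z, ∑ j ∈ Pᶜ, (ν i - ν j) := by
    refine Finset.sum_nonneg fun i hi => Finset.sum_nonneg fun j hj => ?_
    have := hs i (Finset.mem_of_mem_erase hi) j (Finset.mem_compl.1 hj)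
    linarith
  rw [dsum, sum_compl' ν P h0, card_compl_real] at h1
  have h2 : ∑ i ∈ P.erase z, ν i = ∑ i ∈ P, ν i - ν z := by
    have := Finset.sum_erase_add P ν hz
    linarith
  have h3 : ((P.erase z).card : ℝ) = (P.card : ℝ) - 1 := by
    rw [Finset.card_erase_of_mem hz, Nat.cast_sub (Finset.card_pos.2 ⟨z, hz⟩)]
    simp
  rw [h2, h3] at h1
  nlinarith

/-- (iii) -/
theorem top_three (c ν : ι → ℝ) (P : Finset ι) (z : ι) (b : ℝ) (h0 : ∑ i, ν i = 0)
    (hc0 : ∑ i, c i = 0) (hcP : ∀ i ∈ P, c i = c z) (hb : ∀ i, 0 ≤ c i + b)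
    (hs : ∀ i ∈ P, ∀ j ∉ P, ν j ≤ ν i) :
    (P.card : ℝ) * ∑ i, c i * ν i ≤ (Fintype.card ι : ℝ) * b * ∑ i ∈ P, ν i := by
  set S := ∑ i ∈ P, ν i with hS
  have h1 : ∑ i, c i * ν i = ∑ i, (c i + b) * ν i := by
    simp only [add_mul, Finset.sum_add_distrib, ← Finset.mul_sum, h0]
    ring
  have h2 : ∀ j ∉ P, (P.card : ℝ) * ν j ≤ S := by
    intro j hj
    rw [hS, ← nsmul_eq_mul]
    exact Finset.card_nsmul_le_sum P ν (ν j) (fun i hi => hs i hi j hj)
  have h3 : (P.card : ℝ) * ∑ i, (c i + b) * ν i =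
      (P.card : ℝ) * ∑ i ∈ P, (c i + b) * ν i + ∑ i ∈ Pᶜ, (c i + b) * ((P.card : ℝ) * ν i) := by
    rw [← Finset.sum_add_sum_compl P, mul_add]
    congr 1
    rw [Finset.mul_sum]
    refine Finset.sum_congr rfl fun i _ => by ring
  have h4 : (P.card : ℝ) * ∑ i ∈ P, (c i + b) * ν i = (∑ i ∈ P, (c i + b)) * S := by
    have e1 : ∑ i ∈ P, (c i + b) * ν i = (c z + b) * S := by
      rw [hS, Finset.mul_sum]
      refine Finset.sum_congr rfl fun i hi => by rw [hcP i hi]
    have e2 : ∑ i ∈ P, (c i + b) = (P.card : ℝ) * (c z + b) := by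
      rw [Finset.sum_congr rfl (fun i hi => by rw [hcP i hi]), Finset.sum_const, nsmul_eq_mul]
    rw [e1, e2]
    ring
  have h5 : ∑ i ∈ Pᶜ, (c i + b) * ((P.card : ℝ) * ν i) ≤ (∑ i ∈ Pᶜ, (c i + b)) * S := by
    rw [Finset.sum_mul]
    refine Finset.sum_le_sum fun i hi => ?_
    exact mul_le_mul_of_nonneg_left (h2 i (Finset.mem_compl.1 hi)) (hb i)
  have h6 : ∑ i ∈ P, (c i + b) + ∑ i ∈ Pᶜ, (c i + b) = (Fintype.card ι : ℝ) * b := by
    rw [Finset.sum_add_sum_compl, Finset.sum_add_distrib, hc0]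
    simp
  calc (P.card : ℝ) * ∑ i, c i * ν i
      = (P.card : ℝ) * ∑ i ∈ P, (c i + b) * ν i + ∑ i ∈ Pᶜ, (c i + b) * ((P.card : ℝ) * ν i) := by
        rw [h1, h3]
    _ ≤ (∑ i ∈ P, (c i + b)) * S + (∑ i ∈ Pᶜ, (c i + b)) * S := by
        rw [h4]; exact add_le_add le_rfl h5
    _ = (Fintype.card ι : ℝ) * b * S := by rw [← add_mul, h6]

/-- the middle case -/
theorem middle (c ν : ι → ℝ) (z : ι) (T : Finset ι) (hT : ∀ i, i ∈ T ↔ c z < c i)
    (h0 : ∑ i, ν i = 0) (hs : ∀ i j, c j < c i → ν j ≤ ν i)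
    (hB : ∃ i, c i < c z) (hz : ν z < 0) (hpos : 0 < ∑ i ∈ T, ν i) :
    2 * (T.card : ℝ) * (-ν z) ≤ ((Fintype.card ι : ℝ) - 1) * ∑ i ∈ T, ν i := by
  classical
  set S := ∑ i ∈ T, ν i with hS
  set B := Finset.univ.filter (fun i => c i < c z) with hBdef
  set L := Finset.univ.filter (fun i => c i = c z) with hLdef
  have hzL : z ∈ L := by simp [hLdef]
  -- partition
  have hpart : ∀ g : ι → ℝ, ∑ i, g i = ∑ i ∈ T, g i + ∑ i ∈ L, g i + ∑ i ∈ B, g i := by
    intro g
    have e1 : (Finset.univ : Finset ι) = (T ∪ L) ∪ B := by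
      ext i
      simp only [Finset.mem_univ, Finset.mem_union, true_iff, hT, hLdef, hBdef,
        Finset.mem_filter, true_and]
      rcases lt_trichotomy (c i) (c z) with h | h | h
      · right; exact h
      · left; right; exact h
      · left; left; exact h
    have e2 : Disjoint T L := by
      rw [Finset.disjoint_left]
      intro i hi hi'
      rw [hT] at hi
      simp only [hLdef, Finset.mem_filter, Finset.mem_univ, true_and] at hi'
      linarith
    have e3 : Disjoint (T ∪ L) B := by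
      rw [Finset.disjoint_left]
      intro i hi hi'
      simp only [Finset.mem_union, hT, hLdef, Finset.mem_filter, Finset.mem_univ, true_and] at hi
      simp only [hBdef, Finset.mem_filter, Finset.mem_univ, true_and] at hi'
      rcases hi with hi | hi <;> linarith
    rw [e1, Finset.sum_union e3, Finset.sum_union e2]
  have h1 : 0 ≤ ∑ i ∈ T, ∑ j ∈ L.erase z, (ν i - ν j) := by
    refine Finset.sum_nonneg fun i hi => Finset.sum_nonneg fun j hj => ?_
    have hj' := Finset.mem_of_mem_erase hj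
    simp only [hLdef, Finset.mem_filter, Finset.mem_univ, true_and] at hj'
    rw [hT] at hi
    have := hs i j (by rw [hj']; exact hi)
    linarith
  rw [dsum] at h1
  have h2 : ∑ i ∈ L.erase z, ν i = ∑ i ∈ L, ν i - ν z := by
    have := Finset.sum_erase_add L ν hzL
    linarith
  have h3 : ((L.erase z).card : ℝ) = (L.card : ℝ) - 1 := by
    rw [Finset.card_erase_of_mem hzL, Nat.cast_sub (Finset.card_pos.2 ⟨z, hzL⟩)]
    simp
  have h4 : ∑ i ∈ B, ν i ≤ (B.card : ℝ) * ν z := by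
    rw [← nsmul_eq_mul]
    refine Finset.sum_le_card_nsmul B ν (ν z) (fun i hi => ?_)
    simp only [hBdef, Finset.mem_filter, Finset.mem_univ, true_and] at hi
    exact hs z i hi
  have h5 := hpart ν
  rw [h0] at h5
  have h6 := hpart (fun _ => 1)
  simp only [Finset.sum_const, nsmul_eq_mul, mul_one, Finset.card_univ] at h6
  have hB1 : (1 : ℝ) ≤ B.card := by
    have : 0 < B.card := Finset.card_pos.2 (by
      obtain ⟨i, hi⟩ := hB
      exact ⟨i, by simp [hBdef, hi]⟩)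
    exact_mod_cast this
  rw [h2, h3] at h1
  have hT0 : (0 : ℝ) ≤ T.card := Nat.cast_nonneg _
  -- S + (ΣL) + ΣB = 0
  have h7 : (T.card : ℝ) * (∑ i ∈ L, ν i - ν z) ≤ ((L.card : ℝ) - 1) * S := by
    linarith
  have h8 : 0 ≤ (T.card : ℝ) * S + ((L.card : ℝ) - 1) * S + (T.card : ℝ) * ν z
      + (T.card : ℝ) * ((B.card : ℝ) * ν z) := by
    have h9 : (T.card : ℝ) * ∑ i ∈ B, ν i ≤ (T.card : ℝ) * ((B.card : ℝ) * ν z) :=
      mul_le_mul_of_nonneg_left h4 hT0
    have h10 : (T.card : ℝ) * (S + ∑ i ∈ L, ν i + ∑ i ∈ B, ν i) = 0 := by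
      rw [← h5, mul_zero]
    nlinarith
  have h9 : ((T.card : ℝ) + L.card - 1) * S ≤ ((Fintype.card ι : ℝ) - 1) * S := by
    refine mul_le_mul_of_nonneg_right ?_ hpos.le
    rw [h6]
    linarith
  have h10 : (T.card : ℝ) * (1 + B.card) * (-ν z) ≤ ((T.card : ℝ) + L.card - 1) * S := by
    linarith
  have h11 : 2 * (T.card : ℝ) * (-ν z) ≤ (T.card : ℝ) * (1 + B.card) * (-ν z) := by
    refine mul_le_mul_of_nonneg_right ?_ (by linarith)
    nlinarith
  linarith

/-- The choice of the weights. -/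
theorem weights (d : ℕ) (hd : 1 ≤ d) (M m : ℝ) (hM : 0 < M) (hm : 0 < m) (t : ℕ) (htd : t ≤ d) :
    ∃ δ : ℝ, 0 ≤ δ ∧ δ ≤ 1 ∧
      (t < d → ((1 - δ) * d < d - t ∨ (1 - δ) * (d * m) < (t + 1) * M)) ∧
      (1 ≤ t → (δ * d < t ∨ δ * (d * M) < (d + 1 - t) * m)) ∧
      (1 ≤ t → δ * d < 2 * t) := by
  have hd0 : (0 : ℝ) < d := by exact_mod_cast hd
  rcases Nat.eq_zero_or_pos t with h0 | hpos
  · subst h0
    refine ⟨1, zero_le_one, le_rfl, fun _ => Or.inl (by simp [hd0]), ?_, ?_⟩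
    · intro h; omega
    · intro h; omega
  rcases Nat.eq_or_lt_of_le htd with h1 | h1
  · subst h1
    refine ⟨0, le_rfl, zero_le_one, ?_, fun _ => Or.inl (by simpa using hd0), fun _ => ?_⟩
    · intro h; omega
    · simpa using hd0
  have ht0 : (0 : ℝ) < t := by exact_mod_cast hpos
  have ht1 : (t : ℝ) < d := by exact_mod_cast h1
  rcases lt_or_ge (((d : ℝ) - t) * m) ((t + 1) * M) with hc | hc
  · -- slightly less than t / d
    obtain ⟨δ, h2, h3⟩ := exists_between (show max 0 (1 - (t + 1) * M / (d * m)) < (t : ℝ) / d by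
      rw [max_lt_iff]
      refine ⟨by positivity, ?_⟩
      have : ((d : ℝ) - t) / d < (t + 1) * M / (d * m) := by
        rw [div_lt_div_iff₀ hd0 (by positivity)]
        nlinarith
      have e : ((d : ℝ) - t) / d = 1 - t / d := by field_simp
      rw [e] at this
      linarith)
    rw [max_lt_iff] at h2
    have h4 : δ * d < t := by rwa [lt_div_iff₀ hd0] at h3
    have h5 : (t : ℝ) / d < 1 := by rw [div_lt_one hd0]; exact ht1
    refine ⟨δ, h2.1.le, by linarith, fun _ => Or.inr ?_, fun _ => Or.inl h4, fun _ => by linarith⟩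
    have h6 : 1 - δ < (t + 1) * M / (d * m) := by linarith [h2.2]
    rwa [lt_div_iff₀ (by positivity)] at h6
  · have hc2 : (t : ℝ) * M < (d + 1 - t) * m := by nlinarith
    obtain ⟨δ, h2, h3⟩ := exists_between
      (show (t : ℝ) / d < min (1 : ℝ) (min (2 * (t : ℝ) / d) (((d : ℝ) + 1 - t) * m / (d * M))) by
      rw [lt_min_iff, lt_min_iff]
      refine ⟨by rw [div_lt_one hd0]; exact ht1, ?_, ?_⟩
      · rw [div_lt_div_iff_of_pos_right hd0]
        linarith
      · rw [div_lt_div_iff₀ hd0 (by positivity)]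
        nlinarith)
    rw [lt_min_iff, lt_min_iff] at h3
    have h4 : (t : ℝ) < δ * d := by rwa [div_lt_iff₀ hd0] at h2
    have h5 : δ * d < 2 * t := by
      have := h3.2.1
      rwa [lt_div_iff₀ hd0] at this
    have h6 : δ * (d * M) < (d + 1 - t) * m := by
      have := h3.2.2
      rwa [lt_div_iff₀ (by positivity)] at this
    refine ⟨δ, ?_, h3.1.le, fun _ => Or.inl ?_, fun _ => Or.inr h6, fun _ => h5⟩
    · by_contra h
      push Not at h
      nlinarith
    · nlinarith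

end Pool.Agent.H843R3.Had
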