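import Mathlib
import Pool.Agent.H843R3.Had.Comb

set_option autoImplicit false
set_option maxHeartbeats 1000000

open Finset

namespace Pool.Agent.H843R3.Had

variable {α : Type*} [Fintype α] [DecidableEq α]

/-- The conditions on the weight `δ` used for the sets with `t` elements. -/
def GoodWeight (d : ℕ) (M m : ℝ) (t : ℕ) (δ : ℝ) : Prop :=
  0 ≤ δ ∧ δ ≤ 1 ∧
      (t < d → ((1 - δ) * d < d - t ∨ (1 - δ) * (d * m) < (t + 1) * M)) ∧
      (1 ≤ t → (δ * d < t ∨ δ * (d * M) < (d + 1 - t) * m)) ∧
      (1 ≤ t → δ * d < 2 * t)

/-- top case, in terms of the index type `Option α` -/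
theorem top_case (hd : 1 ≤ Fintype.card α) (M m : ℝ) (hm : 0 < m)
    (c ν : Option α → ℝ) (hc0 : ∑ i, c i = 0) (h0 : ∑ i, ν i = 0) (hν : ∃ i, ν i ≠ 0)
    (hs : ∀ i j, c j < c i → ν j ≤ ν i) (htop : ∀ i, c i ≤ c none) (hne : ∃ i, c i < c none)
    (hb : ∀ i, -c i ≤ (Fintype.card α : ℝ) / (Fintype.card α + 1) * m)
    (hM : M * ν none ≤ ∑ i, c i * ν i) (δ : ℝ) (h1 : 0 ≤ 1 - δ)
    (hδ : (1 - δ) * (Fintype.card α : ℝ) < (Fintype.card α : ℝ) -
        ((univ.filter fun a : α => c (some a) = c none).card : ℝ) ∨
      (1 - δ) * ((Fintype.card α : ℝ) * m) <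
        (((univ.filter fun a : α => c (some a) = c none).card : ℝ) + 1) * M) :
    0 < ∑ a ∈ univ.filter (fun a : α => c (some a) = c none), ν (some a) + δ * ν none := by
  set T := univ.filter (fun a : α => c (some a) = c none) with hT
  set d := Fintype.card α with hdef
  have hd0 : (0 : ℝ) < d := by exact_mod_cast hd
  have hcard : Fintype.card (Option α) = d + 1 := Fintype.card_option
  set P : Finset (Option α) := insertNone T with hP
  have hmemP : ∀ i, i ∈ P ↔ c i = c none := by
    intro i
    cases i with
    | none => simp [hP]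
    | some a => simp [hP, hT]
  have hzP : (none : Option α) ∈ P := (hmemP none).2 rfl
  have hsP : ∀ i ∈ P, ∀ j ∉ P, ν j ≤ ν i := by
    intro i hi j hj
    rw [hmemP] at hi hj
    exact hs i j (by rw [hi]; exact lt_of_le_of_ne (htop j) hj)
  have hPcard : (P.card : ℝ) = T.card + 1 := by
    rw [hP, Finset.card_insertNone]
    push_cast
    ring
  have hsum : ∑ i ∈ P, ν i = ν none + ∑ a ∈ T, ν (some a) := by
    rw [hP, Finset.sum_insertNone]
  have hpos : 0 < ∑ i ∈ P, ν i := by
    refine prefix_pos ν P h0 hsP ⟨none, hzP⟩ ?_ hν
    obtain ⟨i, hi⟩ := hne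
    exact ⟨i, by rw [hmemP]; exact hi.ne⟩
  have h2 := top_two ν P none hzP h0 hsP
  have h3 := top_three c ν P none ((d : ℝ) / (d + 1) * m) h0 hc0 (fun i hi => (hmemP i).1 hi)
    (fun i => by have := hb i; linarith) hsP
  rw [hcard, hPcard] at h2
  rw [hcard, hPcard] at h3
  push_cast at h2 h3
  set S := ∑ i ∈ P, ν i with hS
  have e1 : ∑ a ∈ T, ν (some a) + δ * ν none = S - (1 - δ) * ν none := by
    rw [hsum]; ring
  rw [e1]
  rcases le_or_gt (ν none) 0 with hz | hz
  · have : (1 - δ) * ν none ≤ 0 := mul_nonpos_of_nonneg_of_nonpos h1 hz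
    linarith
  · have h4 : ((d : ℝ) - T.card) * ν none ≤ d * S := by
      have e : ((d : ℝ) + 1 - (T.card + 1)) = d - T.card := by ring
      rw [e] at h2
      have e' : ((d : ℝ) + 1 - 1) = d := by ring
      rw [e'] at h2
      exact h2
    have h5 : ((T.card : ℝ) + 1) * (M * ν none) ≤ d * m * S := by
      have e : ((d : ℝ) + 1) * (d / (d + 1) * m) * S = d * m * S := by
        field_simp
      rw [e] at h3
      have h6 : ((T.card : ℝ) + 1) * (M * ν none) ≤ ((T.card : ℝ) + 1) * ∑ i, c i * ν i :=
        mul_le_mul_of_nonneg_left hM (by positivity)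
      exact h6.trans h3
    rcases hδ with hδ | hδ
    · have h6 : (1 - δ) * d * ν none < (d - T.card) * ν none := mul_lt_mul_of_pos_right hδ hz
      have h7 : (d : ℝ) * ((1 - δ) * ν none) < d * S := by nlinarith
      have := lt_of_mul_lt_mul_left h7 hd0.le
      linarith
    · have h6 : (1 - δ) * (d * m) * ν none < ((T.card : ℝ) + 1) * M * ν none :=
        mul_lt_mul_of_pos_right hδ hz
      have h7 : (d * m : ℝ) * ((1 - δ) * ν none) < d * m * S := by nlinarith
      have := lt_of_mul_lt_mul_left h7 (by positivity)
      linarith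

/-- For each position `c` there is a direction which works for all its normals `ν`. -/
theorem exists_dir (hd : 1 ≤ Fintype.card α) (M m : ℝ) (hM : 0 < M) (hm : 0 < m) (δ : ℕ → ℝ)
    (hδ : ∀ t ≤ Fintype.card α, GoodWeight (Fintype.card α) M m t (δ t))
    (c : Option α → ℝ) (hc0 : ∑ i, c i = 0) (hcne : ∃ i, c i ≠ 0)
    (hbM : ∀ i, c i ≤ (Fintype.card α : ℝ) / (Fintype.card α + 1) * M)
    (hbm : ∀ i, -c i ≤ (Fintype.card α : ℝ) / (Fintype.card α + 1) * m) :
    ∃ T : Finset α, ∀ ν : Option α → ℝ, ∑ i, ν i = 0 → (∃ i, ν i ≠ 0) →
      (∀ i j, c j < c i → ν j ≤ ν i) → M * ν none ≤ ∑ i, c i * ν i →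
      m * (-ν none) ≤ ∑ i, c i * ν i →
      0 < ∑ a ∈ T, ν (some a) + δ T.card * ν none := by
  set d := Fintype.card α with hdef
  have hd0 : (0 : ℝ) < d := by exact_mod_cast hd
  have hcard : Fintype.card (Option α) = d + 1 := Fintype.card_option
  -- `c` is not constant
  have hnc : ∃ i, c i ≠ c none := by
    by_contra hcon
    push Not at hcon
    have h1 : ∑ i, c i = (Fintype.card (Option α) : ℝ) * c none := by
      rw [Finset.sum_congr rfl (fun i _ => hcon i)]
      simp
    rw [hc0, hcard] at h1
    have h2 : c none = 0 := by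
      rcases mul_eq_zero.1 h1.symm with h | h
      · exfalso
        push_cast at h
        linarith
      · exact h
    obtain ⟨i, hi⟩ := hcne
    exact hi (by rw [hcon i, h2])
  by_cases htop : ∀ i, c i ≤ c none
  · -- top case
    refine ⟨univ.filter (fun a : α => c (some a) = c none), ?_⟩
    intro ν h0 hν hs h1 h2
    have hne : ∃ i, c i < c none := by
      obtain ⟨i, hi⟩ := hnc
      exact ⟨i, lt_of_le_of_ne (htop i) hi⟩
    have hTle : (univ.filter (fun a : α => c (some a) = c none)).card ≤ d :=
      Finset.card_le_univ _
    have hTlt : (univ.filter (fun a : α => c (some a) = c none)).card < d := by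
      rcases Nat.lt_or_ge (univ.filter (fun a : α => c (some a) = c none)).card d with h | h
      · exact h
      · exfalso
        have h3 : univ.filter (fun a : α => c (some a) = c none) = univ :=
          Finset.eq_univ_of_card _ (le_antisymm hTle h)
        obtain ⟨i, hi⟩ := hnc
        cases i with
        | none => exact hi rfl
        | some a =>
          have : a ∈ univ.filter (fun a : α => c (some a) = c none) := by rw [h3]; simp
          exact hi (by simpa using this)
    obtain ⟨g0, g1, g2, g3, g4⟩ := hδ _ hTle
    exact top_case hd M m hm c ν hc0 h0 hν hs htop hne hbm h1 _ (by linarith) (g2 hTlt)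
  · push Not at htop
    set T := univ.filter (fun a : α => c none < c (some a)) with hT
    have hTle : T.card ≤ d := Finset.card_le_univ _
    obtain ⟨g0, g1, g2, g3, g4⟩ := hδ _ hTle
    have hTne : T.Nonempty := by
      obtain ⟨i, hi⟩ := htop
      cases i with
      | none => exact absurd hi (lt_irrefl _)
      | some a => exact ⟨a, by simp [hT, hi]⟩
    have hT1 : 1 ≤ T.card := Finset.card_pos.2 hTne
    refine ⟨T, ?_⟩
    intro ν h0 hν hs h1 h2
    by_cases hbot : ∀ i, c none ≤ c i
    · -- bottom case
      set T' := univ.filter (fun a : α => c (some a) = c none) with hT'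
      have hTT' : T'ᶜ = T := by
        ext a
        simp only [hT, hT', Finset.mem_compl, Finset.mem_filter, Finset.mem_univ, true_and]
        constructor
        · intro h
          exact lt_of_le_of_ne (hbot _) (Ne.symm h)
        · intro h h'
          linarith
      have hcT : (T'.card : ℝ) = d - T.card := by
        rw [← hTT', card_compl_real]
        ring
      have hTeq : univ.filter (fun a : α => (fun i => -c i) (some a) = (fun i => -c i) none) = T' := by
        ext a
        simp [hT']
      have key := top_case hd m M hM (fun i => -c i) (fun i => -ν i)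
        (by simp only [Finset.sum_neg_distrib, hc0, neg_zero])
        (by simp only [Finset.sum_neg_distrib, h0, neg_zero])
        (by obtain ⟨i, hi⟩ := hν; exact ⟨i, neg_ne_zero.2 hi⟩)
        (by intro i j hij
            have : c i < c j := by simpa using hij
            have := hs j i this
            simpa using this)
        (by intro i; simpa using hbot i)
        (by obtain ⟨i, hi⟩ := htop
            exact ⟨i, by simpa using hi⟩)
        (by intro i; simpa using hbM i)
        (by simpa using h2) (1 - δ T.card) (by linarith)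
        (by
          rw [hTeq, hcT]
          rcases g3 hT1 with g | g
          · left
            have e1 : (1 - (1 - δ T.card)) * (Fintype.card α : ℝ) = δ T.card * d := by ring
            have e2 : (Fintype.card α : ℝ) - (d - T.card) = T.card := by rw [← hdef]; ring
            rw [e1, e2]
            exact g
          · right
            have e1 : (1 - (1 - δ T.card)) * ((Fintype.card α : ℝ) * M) = δ T.card * (d * M) := by
              ring
            rw [e1]
            have e2 : ((d : ℝ) - T.card + 1) * m = (d + 1 - T.card) * m := by ring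
            rw [e2]
            exact g)
      rw [hTeq] at key
      have h3 : ∑ i, ν i = ν none + ∑ a, ν (some a) := Fintype.sum_option ν
      have h4 : ∑ a, ν (some a) = ∑ a ∈ T', ν (some a) + ∑ a ∈ T, ν (some a) := by
        rw [← hTT', Finset.sum_add_sum_compl]
      simp only [Finset.sum_neg_distrib] at key
      rw [h0, h4] at h3
      nlinarith
    · -- middle case
      push Not at hbot
      have hsum : ∑ i ∈ T.map Function.Embedding.some, ν i = ∑ a ∈ T, ν (some a) := by
        rw [Finset.sum_map]
        rfl
      have hmem : ∀ i, i ∈ T.map Function.Embedding.some ↔ c none < c i := by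
        intro i
        cases i with
        | none => simp
        | some a => simp [hT]
      have hpos : 0 < ∑ i ∈ T.map Function.Embedding.some, ν i := by
        refine prefix_pos ν _ h0 ?_ ?_ ?_ hν
        · intro i hi j hj
          rw [hmem] at hi hj
          exact hs i j (by linarith [not_lt.1 hj])
        · exact hTne.map
        · exact ⟨none, by rw [hmem]; exact lt_irrefl _⟩
      rw [hsum] at hpos
      rcases le_or_gt 0 (ν none) with hz | hz
      · have : 0 ≤ δ T.card * ν none := mul_nonneg g0 hz
        linarith
      · have h3 := middle c ν none _ hmem h0 hs hbot hz (by rw [hsum]; exact hpos)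
        rw [hsum, hcard, Finset.card_map] at h3
        push_cast at h3
        have e' : ((d : ℝ) + 1 - 1) = d := by ring
        rw [e'] at h3
        have h4 : δ T.card * d * (-ν none) < 2 * T.card * (-ν none) :=
          mul_lt_mul_of_pos_right (g4 hT1) (by linarith)
        have h5 : (d : ℝ) * (δ T.card * (-ν none)) < d * ∑ a ∈ T, ν (some a) := by nlinarith
        have := lt_of_mul_lt_mul_left h5 hd0.le
        linarith

end Pool.Agent.H843R3.Had
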