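import Mathlib

set_option autoImplicit false
set_option maxHeartbeats 1000000

open Set Topology

namespace Pool.Agent.H843R3.Had

variable {E : Type*} [NormedAddCommGroup E] [NormedSpace ℝ E]

/-- A direction which is negative on all outer normals at `x` points into the interior. -/
theorem illum {K : Set E} (hK : Convex ℝ K) (hi : (interior K).Nonempty) {x w : E} (hx : x ∈ K)
    (h : ∀ f : E →L[ℝ] ℝ, f ≠ 0 → (∀ y ∈ K, f y ≤ f x) → f w < 0) :
    ∃ ε : ℝ, 0 < ε ∧ x + ε • w ∈ interior K := by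
  by_contra hcon
  push Not at hcon
  set R : Set E := (fun ε : ℝ => x + ε • w) '' Ioi 0 with hR
  have hRc : Convex ℝ R := by
    have : R = (fun y => x + y) '' ((fun ε : ℝ => ε • w) '' Ioi 0) := by
      rw [hR, image_image]
    rw [this]
    refine Convex.translate ?_ x
    exact (convex_Ioi 0).is_linear_image
      (⟨fun a b => add_smul a b w, fun a b => by simp [mul_smul]⟩ : IsLinearMap ℝ (fun ε : ℝ => ε • w))
  have hdis : Disjoint (interior K) R := by
    rw [Set.disjoint_left]
    rintro y hy ⟨ε, hε, rfl⟩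
    exact hcon ε hε hy
  obtain ⟨f, u, hf1, hf2⟩ := geometric_hahn_banach_open hK.interior isOpen_interior hRc hdis
  have hf3 : ∀ ε : ℝ, 0 < ε → u ≤ f x + ε * f w := by
    intro ε hε
    have := hf2 (x + ε • w) ⟨ε, hε, rfl⟩
    simpa using this
  have hfx : u ≤ f x := by
    have h1 : Filter.Tendsto (fun ε : ℝ => f x + ε * f w) (𝓝[>] 0) (𝓝 (f x + 0 * f w)) := by
      refine Filter.Tendsto.mono_left ?_ nhdsWithin_le_nhds
      exact (Continuous.tendsto (by fun_prop) 0)
    rw [zero_mul, add_zero] at h1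
    refine ge_of_tendsto h1 ?_
    filter_upwards [self_mem_nhdsWithin] with ε hε
    exact hf3 ε hε
  have hKle : ∀ y ∈ K, f y ≤ u := by
    intro y hy
    have h1 : y ∈ closure (interior K) := by
      rw [hK.closure_interior_eq_closure_of_nonempty_interior hi]
      exact subset_closure hy
    have h2 : closure (interior K) ⊆ {y | f y ≤ u} := by
      refine closure_minimal (fun z hz => (hf1 z hz).le) ?_
      exact isClosed_le f.continuous continuous_const
    exact h2 h1
  have hne : f ≠ 0 := by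
    rintro rfl
    obtain ⟨y, hy⟩ := hi
    have h1 := hf1 y hy
    have h2 := hKle x hx
    simp only [ContinuousLinearMap.zero_apply] at h1 hfx
    linarith
  have h1 := h f hne (fun y hy => (hKle y hy).trans hfx)
  have h2 := hf3 1 one_pos
  have h3 := hKle x hx
  linarith

/-- From illumination to covering. -/
theorem cover {ι : Type*} {K : Set E} (hK : Convex ℝ K) (hc : IsCompact K) (w : ι → E)
    (h : ∀ x ∈ K, ∃ j, ∃ ε : ℝ, 0 < ε ∧ x + ε • w j ∈ interior K) :
    ∃ r : ℝ, 0 < r ∧ ∀ x ∈ K, ∃ j, x + r • w j ∈ interior K := by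
  have key : ∃ r : ℝ, 0 < r ∧ ∀ r' : ℝ, 0 < r' → r' ≤ r → ∀ x ∈ K, ∃ j, x + r' • w j ∈ interior K := by
    refine hc.induction_on (p := fun s => ∃ r : ℝ, 0 < r ∧ ∀ r' : ℝ, 0 < r' → r' ≤ r →
      ∀ x ∈ s, ∃ j, x + r' • w j ∈ interior K) ?_ ?_ ?_ ?_
    · exact ⟨1, one_pos, fun _ _ _ x hx => absurd hx (notMem_empty x)⟩
    · rintro s t hst ⟨r, hr, h1⟩
      exact ⟨r, hr, fun r' h2 h3 x hx => h1 r' h2 h3 x (hst hx)⟩
    · rintro s t ⟨r, hr, h1⟩ ⟨r2, hr2, h2⟩
      refine ⟨min r r2, lt_min hr hr2, fun r' h3 h4 x hx => ?_⟩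
      rcases hx with hx | hx
      · exact h1 r' h3 (h4.trans (min_le_left _ _)) x hx
      · exact h2 r' h3 (h4.trans (min_le_right _ _)) x hx
    · intro x hx
      obtain ⟨j, ε, hε, hj⟩ := h x hx
      refine ⟨K ∩ {y | y + ε • w j ∈ interior K}, ?_, ε, hε, ?_⟩
      · refine inter_mem_nhdsWithin K ?_
        refine IsOpen.mem_nhds ?_ hj
        exact isOpen_interior.preimage (continuous_id.add continuous_const)
      · rintro r' hr' hle y ⟨hyK, hy⟩
        refine ⟨j, ?_⟩
        have h1 : y + r' • w j = (1 - r' / ε) • y + (r' / ε) • (y + ε • w j) := by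
          rw [smul_add, smul_smul, div_mul_cancel₀ _ hε.ne', ← add_assoc, ← add_smul]
          congr 1
          rw [sub_add_cancel, one_smul]
        rw [h1]
        exact hK.combo_self_interior_mem_interior hyK hy (by
            rw [sub_nonneg, div_le_one hε]; exact hle) (by positivity) (by ring)
  obtain ⟨r, hr, h1⟩ := key
  exact ⟨r, hr, h1 r hr le_rfl⟩

end Pool.Agent.H843R3.Had
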