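import Mathlib
import Pool.Agent.H843R3.Had.Dir
import Pool.Agent.H843R3.Had.Illum

set_option autoImplicit false
set_option maxHeartbeats 1000000

open Finset Topology

namespace Pool.Agent.H843R3.Had

section avg

variable {β : Type*} [Fintype β] [DecidableEq β] {V : Type*} [AddCommGroup V] [Module ℝ V]

omit [Module ℝ V] in
theorem perm_sum_eq (g : β → V) (a b : β) :
    ∑ σ : Equiv.Perm β, g (σ a) = ∑ σ : Equiv.Perm β, g (σ b) := by
  refine Fintype.sum_equiv (Equiv.mulRight (Equiv.swap a b)) _ _ fun σ => ?_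
  simp

theorem perm_sum (g : β → V) (a : β) :
    (Fintype.card β : ℝ) • ∑ σ : Equiv.Perm β, g (σ a) =
      (Fintype.card (Equiv.Perm β) : ℝ) • ∑ b, g b := by
  have h1 : ∑ b : β, ∑ σ : Equiv.Perm β, g (σ b) =
      (Fintype.card β : ℝ) • ∑ σ : Equiv.Perm β, g (σ a) := by
    rw [Finset.sum_congr rfl (fun b _ => perm_sum_eq g b a), Finset.sum_const, Finset.card_univ,
      Nat.cast_smul_eq_nsmul]
  rw [← h1, Finset.sum_comm,
    Finset.sum_congr rfl (fun (σ : Equiv.Perm β) _ => Equiv.sum_comp σ g), Finset.sum_const,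
    Finset.card_univ, Nat.cast_smul_eq_nsmul]

end avg

variable {α : Type*} [Fintype α] [DecidableEq α]
variable {E : Type*} [NormedAddCommGroup E] [NormedSpace ℝ E]

/-- Data: the vectors `q` (vertices of a simplex with centroid `0`), and a convex body `K`
invariant under all permutations of them. -/
structure Sym (q : Option α → E) (K : Set E) : Prop where
  sum : ∑ i, q i = 0
  span : ∀ x : E, ∃ c : Option α → ℝ, x = ∑ i, c i • q i
  ne : q none ≠ 0
  conv : Convex ℝ K
  comp : IsCompact K
  int : (interior K).Nonempty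
  inv : ∀ (σ : Equiv.Perm (Option α)) (c : Option α → ℝ), ∑ i, c i • q i ∈ K →
    ∑ i, c i • q (σ i) ∈ K

variable {q : Option α → E} {K : Set E}

omit [DecidableEq α] in
theorem Sym.card_pos (h : Sym q K) : 1 ≤ Fintype.card α := by
  by_contra hcon
  have h0 : Fintype.card α = 0 := by omega
  have : IsEmpty α := Fintype.card_eq_zero_iff.1 h0
  have h1 := h.sum
  rw [Fintype.sum_option] at h1
  simp only [Finset.univ_eq_empty, Finset.sum_empty, add_zero] at h1
  exact h.ne h1

omit [DecidableEq α] in
theorem Sym.coords (h : Sym q K) (x : E) :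
    ∃ c : Option α → ℝ, ∑ i, c i = 0 ∧ x = ∑ i, c i • q i := by
  obtain ⟨c, hc⟩ := h.span x
  have hN : (Fintype.card (Option α) : ℝ) ≠ 0 := by
    rw [Fintype.card_option]
    positivity
  refine ⟨fun i => c i - (∑ j, c j) / Fintype.card (Option α), ?_, ?_⟩
  · rw [Finset.sum_sub_distrib, Finset.sum_const, Finset.card_univ, nsmul_eq_mul,
      mul_div_cancel₀ _ hN, sub_self]
  · simp only [sub_smul, Finset.sum_sub_distrib, ← Finset.smul_sum, h.sum, smul_zero, sub_zero]
    exact hc

theorem Sym.zero_mem_interior (h : Sym q K) : (0 : E) ∈ interior K := by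
  by_contra hcon
  obtain ⟨f, hf⟩ := geometric_hahn_banach_open_point h.conv.interior isOpen_interior hcon
  rw [map_zero] at hf
  have hK : ∀ y ∈ K, f y ≤ 0 := by
    intro y hy
    have h1 : y ∈ closure (interior K) := by
      rw [h.conv.closure_interior_eq_closure_of_nonempty_interior h.int]
      exact subset_closure hy
    have h2 : closure (interior K) ⊆ {y | f y ≤ 0} := by
      refine closure_minimal (fun z hz => (hf z hz).le) ?_
      exact isClosed_le f.continuous continuous_const
    exact h2 h1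
  obtain ⟨y, hy⟩ := h.int
  obtain ⟨c, hc⟩ := h.span y
  have hN : (Fintype.card (Option α) : ℝ) ≠ 0 := by
    rw [Fintype.card_option]
    positivity
  have h1 : ∀ i : Option α, ∑ σ : Equiv.Perm (Option α), q (σ i) = 0 := by
    intro i
    have := perm_sum q i
    rw [h.sum, smul_zero] at this
    exact (smul_eq_zero.1 this).resolve_left hN
  have h2 : ∑ σ : Equiv.Perm (Option α), f (∑ i, c i • q (σ i)) = 0 := by
    rw [← map_sum, Finset.sum_comm]
    simp only [← Finset.smul_sum, h1, smul_zero, Finset.sum_const_zero, map_zero]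
  have h3 : ∀ σ : Equiv.Perm (Option α), f (∑ i, c i • q (σ i)) ≤ 0 := fun σ =>
    hK _ (h.inv σ c (by rw [← hc]; exact interior_subset hy))
  have h4 := (Finset.sum_eq_zero_iff_of_nonpos (fun σ _ => h3 σ)).1 h2 1 (Finset.mem_univ _)
  have h5 := hf y hy
  rw [hc] at h5
  simp only [Equiv.Perm.coe_one, id_eq] at h4
  linarith

/-- averaging over the permutations fixing `none` -/
theorem Sym.avg_none (h : Sym q K) (c : Option α → ℝ) (hc0 : ∑ i, c i = 0)
    (hc : ∑ i, c i • q i ∈ K) :
    (((Fintype.card α : ℝ) + 1) / Fintype.card α * c none) • q none ∈ K := by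
  have hd := h.card_pos
  have hd0 : (0 : ℝ) < Fintype.card α := by exact_mod_cast hd
  set N : ℝ := (Fintype.card (Equiv.Perm α) : ℝ) with hN
  have hN0 : 0 < N := by
    rw [hN]
    exact_mod_cast Fintype.card_pos
  have h1 : ∑ σ : Equiv.Perm α, (1 / N) • ∑ i, c i • q ((Equiv.optionCongr σ) i) ∈ K := by
    refine h.conv.sum_mem (fun _ _ => by positivity) ?_ (fun σ _ => h.inv _ c hc)
    rw [Finset.sum_const, Finset.card_univ, nsmul_eq_mul]
    field_simp
    exact hN.symm
  have h2 : ∑ σ : Equiv.Perm α, (1 / N) • ∑ i, c i • q ((Equiv.optionCongr σ) i) =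
      (((Fintype.card α : ℝ) + 1) / Fintype.card α * c none) • q none := by
    rw [← Finset.smul_sum]
    simp only [Fintype.sum_option, Finset.sum_add_distrib]
    have e1 : ∑ σ : Equiv.Perm α, c none • q ((Equiv.optionCongr σ) none) = (N * c none) • q none := by
      simp only [Equiv.optionCongr_apply, Option.map_none, Finset.sum_const, Finset.card_univ]
      rw [← Nat.cast_smul_eq_nsmul ℝ, smul_smul]
    have e2 : ∀ a : α, ∑ σ : Equiv.Perm α, q ((Equiv.optionCongr σ) (some a)) =
        (-(N / Fintype.card α)) • q none := by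
      intro a
      have e3 := perm_sum (fun b : α => q (some b)) a
      have e4 : ∑ b, q (some b) = - q none := by
        have := h.sum
        rw [Fintype.sum_option] at this
        rw [eq_neg_iff_add_eq_zero, add_comm]
        exact this
      rw [e4] at e3
      have e5 : ∑ σ : Equiv.Perm α, q ((Equiv.optionCongr σ) (some a)) =
          ∑ σ : Equiv.Perm α, q (some (σ a)) := by
        refine Finset.sum_congr rfl fun σ _ => ?_
        simp
      rw [e5]
      have e6 : ∑ σ : Equiv.Perm α, q (some (σ a)) =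
          (1 / (Fintype.card α : ℝ)) • ((Fintype.card α : ℝ) • ∑ σ : Equiv.Perm α, q (some (σ a))) := by
        rw [smul_smul, one_div, inv_mul_cancel₀ hd0.ne', one_smul]
      rw [e6, e3, smul_smul, smul_neg, ← neg_smul]
      congr 1
      rw [hN]
      ring
    rw [e1, Finset.sum_comm]
    simp only [← Finset.smul_sum, e2]
    simp only [smul_smul, ← Finset.sum_smul, ← add_smul, ← Finset.sum_mul]
    congr 1
    have e7 : ∑ a, c (some a) = - c none := by
      rw [Fintype.sum_option] at hc0
      linarith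
    rw [e7]
    field_simp
  rw [h2] at h1
  exact h1

/-- averaging, any coordinate -/
theorem Sym.avg (h : Sym q K) (c : Option α → ℝ) (hc0 : ∑ i, c i = 0)
    (hc : ∑ i, c i • q i ∈ K) (i : Option α) :
    (((Fintype.card α : ℝ) + 1) / Fintype.card α * c i) • q none ∈ K := by
  have h1 : ∑ k, (c (Equiv.swap none i k)) • q k ∈ K := by
    have h2 := h.inv (Equiv.swap none i) c hc
    have h3 : ∑ k, c k • q (Equiv.swap none i k) = ∑ k, (c (Equiv.swap none i k)) • q k := by
      refine Fintype.sum_equiv (Equiv.swap none i) _ _ fun k => ?_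
      simp
    rw [← h3]
    exact h2
  have h4 := h.avg_none (fun k => c (Equiv.swap none i k)) (by
    rw [Equiv.sum_comp (Equiv.swap none i) c]; exact hc0) h1
  simpa using h4

/-- normals are sorted like the points -/
theorem Sym.sorted (h : Sym q K) (c : Option α → ℝ) (hc : ∑ i, c i • q i ∈ K) (f : E →L[ℝ] ℝ)
    (hf : ∀ y ∈ K, f y ≤ f (∑ i, c i • q i)) (i j : Option α) (hij : c j < c i) :
    f (q j) ≤ f (q i) := by
  have hne : i ≠ j := by rintro rfl; exact lt_irrefl _ hij
  have h1 := hf _ (h.inv (Equiv.swap i j) c hc)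
  rw [← sub_nonneg, ← map_sub, ← Finset.sum_sub_distrib, map_sum] at h1
  have h2 : ∑ k, f (c k • q k - c k • q (Equiv.swap i j k)) =
      f (c i • q i - c i • q (Equiv.swap i j i)) + f (c j • q j - c j • q (Equiv.swap i j j)) := by
    refine Fintype.sum_eq_add i j hne ?_
    rintro k ⟨hki, hkj⟩
    rw [Equiv.swap_apply_of_ne_of_ne hki hkj, sub_self, map_zero]
  rw [h2, Equiv.swap_apply_left, Equiv.swap_apply_right] at h1
  simp only [map_sub, map_smul, smul_eq_mul] at h1
  nlinarith

/-- the largest multiple of a vector in a convex body -/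
theorem exists_max {v : E} (hv : v ≠ 0) (hc : IsCompact K) (h0 : (0 : E) ∈ interior K) :
    ∃ M : ℝ, 0 < M ∧ M • v ∈ K ∧ ∀ r : ℝ, r • v ∈ K → r ≤ M := by
  have hcl : IsClosed {r : ℝ | r • v ∈ K} :=
    hc.isClosed.preimage (continuous_id.smul continuous_const)
  have hbd : Bornology.IsBounded {r : ℝ | r • v ∈ K} := by
    obtain ⟨R, hR⟩ := hc.isBounded.exists_norm_le
    rw [isBounded_iff_forall_norm_le]
    refine ⟨R / ‖v‖, fun r hr => ?_⟩
    have h1 := hR _ hr
    rw [norm_smul] at h1
    rw [le_div_iff₀ (norm_pos_iff.2 hv)]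
    exact h1
  have hcomp : IsCompact {r : ℝ | r • v ∈ K} := Metric.isCompact_of_isClosed_isBounded hcl hbd
  have hne : {r : ℝ | r • v ∈ K}.Nonempty := ⟨0, by
    show (0 : ℝ) • v ∈ K
    rw [zero_smul]; exact interior_subset h0⟩
  obtain ⟨M, hM1, hM2⟩ := hcomp.exists_isGreatest hne
  refine ⟨M, ?_, hM1, fun r hr => hM2 hr⟩
  have h1 : Filter.Tendsto (fun r : ℝ => r • v) (𝓝[>] 0) (𝓝 ((0 : ℝ) • v)) := by
    refine Filter.Tendsto.mono_left ?_ nhdsWithin_le_nhds
    exact Continuous.tendsto (by fun_prop) 0
  rw [zero_smul] at h1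
  have h2 : ∀ᶠ r : ℝ in 𝓝[>] 0, r • v ∈ interior K :=
    h1.eventually (isOpen_interior.mem_nhds h0)
  obtain ⟨r, hr1, hr2⟩ := (h2.and self_mem_nhdsWithin).exists
  exact lt_of_lt_of_le hr2 (hM2 (show r • v ∈ K from interior_subset hr1))

/-- **Core theorem.** -/
theorem Sym.main (h : Sym q K) :
    ∃ v : Finset α → E, K ⊆ ⋃ T, (fun y => v T + y) '' interior K := by
  have hd := h.card_pos
  have hd0 : (0 : ℝ) < Fintype.card α := by exact_mod_cast hd
  have h0 := h.zero_mem_interior
  obtain ⟨M, hM0, hM1, hM2⟩ := exists_max h.ne h.comp h0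
  obtain ⟨m, hm0, hm1, hm2⟩ := exists_max (neg_ne_zero.2 h.ne) h.comp h0
  have hw : ∀ t : ℕ, ∃ δ : ℝ, t ≤ Fintype.card α → GoodWeight (Fintype.card α) M m t δ := by
    intro t
    by_cases ht : t ≤ Fintype.card α
    · obtain ⟨δ, hδ⟩ := weights (Fintype.card α) hd M m hM0 hm0 t ht
      exact ⟨δ, fun _ => hδ⟩
    · exact ⟨0, fun h => absurd h ht⟩
  choose δ hδ using hw
  set w : Finset α → E := fun T => -(∑ a ∈ T, q (some a) + δ T.card • q none) with hwdef
  obtain ⟨r, hr, hcov⟩ := cover h.conv h.comp w (by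
    intro x hx
    obtain ⟨c, hc0, hxc⟩ := h.coords x
    by_cases hcne : ∃ i, c i ≠ 0
    · have hxK : ∑ i, c i • q i ∈ K := by rw [← hxc]; exact hx
      have hbM : ∀ i, c i ≤ (Fintype.card α : ℝ) / (Fintype.card α + 1) * M := by
        intro i
        have h1 := hM2 _ (h.avg c hc0 hxK i)
        rw [div_mul_eq_mul_div, div_le_iff₀ hd0] at h1
        rw [div_mul_eq_mul_div, le_div_iff₀ (by positivity)]
        linarith
      have hbm : ∀ i, -c i ≤ (Fintype.card α : ℝ) / (Fintype.card α + 1) * m := by
        intro i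
        have h2 := h.avg c hc0 hxK i
        have e : (((Fintype.card α : ℝ) + 1) / Fintype.card α * c i) • q none =
            (((Fintype.card α : ℝ) + 1) / Fintype.card α * (-c i)) • (- q none) := by
          rw [smul_neg, ← neg_smul]
          congr 1
          ring
        rw [e] at h2
        have h1 := hm2 _ h2
        rw [div_mul_eq_mul_div, div_le_iff₀ hd0] at h1
        rw [div_mul_eq_mul_div, le_div_iff₀ (by positivity)]
        linarith
      obtain ⟨T, hT⟩ := exists_dir hd M m hM0 hm0 δ (fun t ht => hδ t ht) c hc0 hcne hbM hbm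
      refine ⟨T, ?_⟩
      refine illum h.conv h.int hx ?_
      intro f hf hsup
      have hfx : f x = ∑ i, c i * f (q i) := by
        rw [hxc, map_sum]
        simp
      have h1 := hT (fun i => f (q i)) (by rw [← map_sum, h.sum, map_zero])
        (by
          by_contra hcon
          push Not at hcon
          apply hf
          ext y
          obtain ⟨b, hb⟩ := h.span y
          rw [hb, map_sum]
          simp [hcon])
        (fun i j hij => h.sorted c hxK f (by rw [← hxc]; exact hsup) i j hij)
        (by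
          rw [← hfx]
          have := hsup _ hM1
          simpa using this)
        (by
          rw [← hfx]
          have := hsup _ hm1
          simpa using this)
      rw [hwdef]
      simp only [map_neg, map_add, map_sum, map_smul, smul_eq_mul]
      linarith
    · push Not at hcne
      have hx0 : x = 0 := by
        rw [hxc]
        exact Finset.sum_eq_zero fun i _ => by rw [hcne i, zero_smul]
      refine ⟨∅, ?_⟩
      have h1 : Filter.Tendsto (fun r : ℝ => x + r • w ∅) (𝓝[>] 0) (𝓝 (x + (0 : ℝ) • w ∅)) := by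
        refine Filter.Tendsto.mono_left ?_ nhdsWithin_le_nhds
        exact Continuous.tendsto (by fun_prop) 0
      rw [zero_smul, add_zero] at h1
      have h2 : ∀ᶠ r : ℝ in 𝓝[>] 0, x + r • w ∅ ∈ interior K :=
        h1.eventually (isOpen_interior.mem_nhds (by rw [hx0]; exact h0))
      obtain ⟨r, hr1, hr2⟩ := (h2.and self_mem_nhdsWithin).exists
      exact ⟨r, hr2, hr1⟩)
  refine ⟨fun T => -(r • w T), ?_⟩
  intro x hx
  obtain ⟨T, hT⟩ := hcov x hx
  rw [Set.mem_iUnion]
  exact ⟨T, x + r • w T, hT, by simp⟩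

end Pool.Agent.H843R3.Had
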